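import Pool.Agent.H47.ST.Targets

/-!
# MP_78620a_co, board `stk_modules`: row END
-/

namespace Pool.Agent.H78.STK

open Finset Pool.Agent.H47.ST

theorem pf_END (h1 : T_UP) (h2 : T_DN) (h3 : T_FIN) : T_END := by
  obtain ⟨R0, hR0⟩ := h3
  refine ⟨max R0 2, fun R hR => ?_⟩
  have hRR : R0 ≤ R := (le_max_left _ _).trans hR
  have hR2 : 2 ≤ R := (le_max_right _ _).trans hR
  obtain ⟨m0, hm0⟩ : ∃ m0, m0 = R * Nat.sqrt R := ⟨_, rfl⟩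
  obtain ⟨k, hk⟩ : ∃ k, k = R ^ 2 * (R ^ 2 + R - 1) := ⟨_, rfl⟩
  obtain ⟨n, hn⟩ : ∃ n, n = R * k := ⟨_, rfl⟩
  obtain ⟨m, hm⟩ : ∃ m, m = n / m0 + 1 := ⟨_, rfl⟩
  have hs : 1 ≤ Nat.sqrt R := Nat.le_sqrt.2 (by omega)
  have hm01 : 1 ≤ m0 := by
    rw [hm0]
    exact Nat.mul_pos (by omega) hs
  have hnm : n ≤ m * m0 := by
    rw [hm, mul_comm]
    exact (Nat.lt_mul_div_succ n hm01).le
  have hF := hR0 R m0 k n m hRR hm0 hk hn hm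
  have hm1 : 1 ≤ m := by rw [hm]; exact Nat.le_add_left 1 _
  have hU := h1 R n m m0 100 (101 / 100) (by omega) hm01 hm1 hnm (by norm_num) (by norm_num)
  have hD := h2 R (R ^ 2) (R ^ 2) (by omega)
  rw [← hk, ← hn] at hD
  refine ⟨n, ?_, ?_⟩
  · have hk2 : 4 * 5 ≤ k := by
      rw [hk]
      refine Nat.mul_le_mul ?_ ?_
      · nlinarith
      · have : 4 ≤ R ^ 2 := by nlinarith
        omega
    rw [hn]
    nlinarith
  · have hDr : ((R : ℝ) ^ (R ^ 2)) ^ (R ^ 2 * R) * ((R - 1).factorial : ℝ) ^ k ≤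
        (cnt S n R : ℝ) * (((R : ℝ) ^ 2 + 1) ^ R) ^ (R ^ 2 * R) := by
      exact_mod_cast hD
    obtain ⟨E, hE⟩ : ∃ E : ℝ, E = (((R : ℝ) ^ 2 + 1) ^ R) ^ (R ^ 2 * R) := ⟨_, rfl⟩
    have hE0 : 0 < E := by rw [hE]; positivity
    rw [← hE] at hF hDr
    have h4 : (cnt T n R : ℝ) * ((11 / 10 : ℝ) ^ n * E) ≤
        lam R m0 100 (101 / 100) ^ n * ((m0 + 1) * m : ℝ) ^ ((R + 1) * m) *
          ((11 / 10 : ℝ) ^ n * E) := mul_le_mul_of_nonneg_right hU (by positivity)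
    have h5 : ((11 / 10 : ℝ) ^ n * cnt T n R) * E < cnt S n R * E := by
      calc ((11 / 10 : ℝ) ^ n * cnt T n R) * E = (cnt T n R : ℝ) * ((11 / 10 : ℝ) ^ n * E) := by
            ring
        _ < _ := lt_of_le_of_lt h4 (lt_of_lt_of_le hF hDr)
    exact lt_of_mul_lt_mul_right h5 hE0.le

end Pool.Agent.H78.STK
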